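import Pool.Agent.Lib.MP_6bc78b_nt.MS.QZ.Iface
import Pool.Agent.Lib.MP_6bc78b_nt.MS.P4.H84.Nas

/-! Project MS, Part QZ, module FAR: zeros far from `T` do not matter. -/

set_option autoImplicit false

open Complex Filter Topology MeasureTheory ArithmeticFunction

namespace Pool.Agent.Lib.MP_6bc78b_nt.MS.QZ.H03

open Pool.Agent.Lib.MP_6bc78b_nt.MS Pool.Agent.Lib.MP_6bc78b_nt.MS.QZ

/-- Gaussian weights over the integers. -/
noncomputable def gz (u : ℤ) : ℝ := Real.exp (-(|(u : ℝ)| - 1 / 2) ^ 2)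

theorem gz_nonneg (u : ℤ) : 0 ≤ gz u := (Real.exp_pos _).le

theorem gz_le (u : ℤ) : gz u ≤ Real.exp 1 * Real.exp (-|(u : ℝ)|) := by
  unfold gz
  rw [← Real.exp_add]
  refine Real.exp_le_exp.2 ?_
  have := sq_nonneg (|(u : ℝ)| - 1)
  linarith [this, (by ring : (|(u : ℝ)| - 1 / 2) ^ 2 = (|(u : ℝ)| - 1) ^ 2 + |(u : ℝ)| - 3 / 4)]

theorem gz_summable : Summable gz := by
  refine Summable.of_nonneg_of_le gz_nonneg gz_le (Summable.mul_left _ ?_)
  rw [summable_int_iff_summable_nat_and_neg]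
  have h : Summable fun n : ℕ => Real.exp (-(n : ℝ)) := Real.summable_exp_neg_nat
  constructor
  · simpa using h
  · simpa using h

/-- Comparison of the widths. -/
theorem width {T T' : ℝ} (hT : Real.exp 6 ≤ T) (h1 : T / 3 ≤ T') (h2 : T' ≤ 3 * T) :
    0 < DD T ∧ DD T ≤ T / 3 ∧ DD T ≤ 6 * DD T' ∧ 0 < DD T' ∧ 0 < Real.log T' ∧
      cG T' * Real.log T' ≤ 6 * (cG T * Real.log T) := by
  have he : (60 : ℝ) < Real.exp 6 := by
    have h := Real.exp_one_gt_d9
    have h6 : Real.exp 6 = Real.exp 1 ^ 6 := by rw [← Real.exp_nat_mul]; norm_num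
    rw [h6]
    calc (60 : ℝ) < 2 ^ 6 := by norm_num
      _ ≤ Real.exp 1 ^ 6 := by gcongr; linarith
  have hT0 : 60 < T := lt_of_lt_of_le he hT
  have hT'0 : 20 < T' := by linarith
  have hL6 : 6 ≤ Real.log T := by
    rw [Real.le_log_iff_exp_le (by linarith)]; exact hT
  have hL : 0 < Real.log T := by linarith
  have hL' : 0 < Real.log T' := Real.log_pos (by linarith)
  have hLL : Real.log T' ≤ 2 * Real.log T := by
    have : Real.log T' ≤ Real.log (T ^ 2) := by
      refine Real.log_le_log (by linarith) ?_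
      calc T' ≤ 3 * T := h2
        _ ≤ T * T := by gcongr; linarith
        _ = T ^ 2 := by ring
    rwa [Real.log_pow, Nat.cast_ofNat] at this
  set a := Real.log T ^ (2 / 3 : ℝ) with ha
  set b := Real.log T' ^ (2 / 3 : ℝ) with hb
  have ha0 : 0 < a := Real.rpow_pos_of_pos hL _
  have hb0 : 0 < b := Real.rpow_pos_of_pos hL' _
  have h2' : (2 : ℝ) ^ (2 / 3 : ℝ) ≤ 2 := by
    calc (2 : ℝ) ^ (2 / 3 : ℝ) ≤ 2 ^ (1 : ℝ) :=
        Real.rpow_le_rpow_of_exponent_le (by norm_num) (by norm_num)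
      _ = 2 := Real.rpow_one 2
  have hba : b ≤ 2 * a := by
    calc b ≤ (2 * Real.log T) ^ (2 / 3 : ℝ) := Real.rpow_le_rpow hL'.le hLL (by norm_num)
      _ = 2 ^ (2 / 3 : ℝ) * a := Real.mul_rpow (by norm_num) hL.le
      _ ≤ 2 * a := by gcongr
  have ha3 : 3 ≤ a := by
    have h27 : (27 : ℝ) ^ (1 / 3 : ℝ) = 3 := by
      rw [show (27 : ℝ) = 3 ^ (3 : ℝ) by norm_num, ← Real.rpow_mul (by norm_num)]
      norm_num
    calc (3 : ℝ) = (27 : ℝ) ^ (1 / 3 : ℝ) := h27.symm
      _ ≤ (Real.log T ^ (2 : ℝ)) ^ (1 / 3 : ℝ) := by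
        refine Real.rpow_le_rpow (by norm_num) ?_ (by norm_num)
        rw [Real.rpow_two]
        calc (27 : ℝ) ≤ 6 ^ 2 := by norm_num
          _ ≤ Real.log T ^ 2 := by gcongr
      _ = a := by rw [ha, ← Real.rpow_mul hL.le]; norm_num
  have hDT : DD T = T / a := rfl
  have hDT' : DD T' = T' / b := rfl
  have hpos : 0 < DD T := by rw [hDT]; positivity
  have hpos' : 0 < DD T' := by rw [hDT']; positivity
  refine ⟨hpos, ?_, ?_, hpos', hL', ?_⟩
  · rw [hDT]; gcongr
  · rw [hDT, hDT', mul_div_assoc', div_le_div_iff₀ ha0 hb0]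
    calc T * b ≤ T * (2 * a) := by gcongr
      _ = (6 * (T / 3)) * a := by ring
      _ ≤ 6 * T' * a := by gcongr
  · have e1 : ∀ x : ℝ, 0 < Real.log x → DD x * Real.log x = x * Real.log x ^ (1 / 3 : ℝ) := by
      intro x hx
      unfold DD
      have : Real.log x = Real.log x ^ (1 / 3 : ℝ) * Real.log x ^ (2 / 3 : ℝ) := by
        rw [← Real.rpow_add hx]; norm_num
      rw [div_mul_eq_mul_div, div_eq_iff (Real.rpow_pos_of_pos hx _).ne', mul_assoc, ← this]
    have e2 : DD T' * Real.log T' ≤ 6 * (DD T * Real.log T) := by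
      rw [e1 _ hL', e1 _ hL]
      have h3 : Real.log T' ^ (1 / 3 : ℝ) ≤ 2 * Real.log T ^ (1 / 3 : ℝ) := by
        calc Real.log T' ^ (1 / 3 : ℝ) ≤ (2 * Real.log T) ^ (1 / 3 : ℝ) :=
              Real.rpow_le_rpow hL'.le hLL (by norm_num)
          _ = 2 ^ (1 / 3 : ℝ) * Real.log T ^ (1 / 3 : ℝ) := Real.mul_rpow (by norm_num) hL.le
          _ ≤ 2 * Real.log T ^ (1 / 3 : ℝ) := by
            have : (2 : ℝ) ^ (1 / 3 : ℝ) ≤ 2 := by
              calc (2 : ℝ) ^ (1 / 3 : ℝ) ≤ 2 ^ (1 : ℝ) :=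
                  Real.rpow_le_rpow_of_exponent_le (by norm_num) (by norm_num)
                _ = 2 := Real.rpow_one 2
            gcongr
      calc T' * Real.log T' ^ (1 / 3 : ℝ) ≤ (3 * T) * (2 * Real.log T ^ (1 / 3 : ℝ)) := by
            gcongr
        _ = _ := by ring
    unfold cG
    have hp : 0 < 2 * Real.sqrt Real.pi := by positivity
    calc DD T' / (2 * Real.sqrt Real.pi) * Real.log T' =
        (DD T' * Real.log T') / (2 * Real.sqrt Real.pi) := by ring
      _ ≤ (6 * (DD T * Real.log T)) / (2 * Real.sqrt Real.pi) := by gcongr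
      _ = _ := by ring

theorem far (hZN : ZNStatement) (hZ : ZfacStatement) : FarStatement := by
  have hfin := hZ.2.2.2.2.2.2
  intro ε hε
  -- the sum over all zeros
  have hZN2 : ∀ᶠ T : ℝ in atTop, (ZS T (fun _ => 1)).re / (cG T * Real.log T) < 2 :=
    hZN.eventually_lt_const (by norm_num)
  obtain ⟨T1, hT1⟩ := eventually_atTop.1 hZN2
  -- the integers
  have hε' : 0 < ε / (Real.exp 9 * 12) := by positivity
  obtain ⟨s, hs⟩ := summable_iff_vanishing_norm.1 gz_summable _ hε'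
  obtain ⟨A, hA1, hA⟩ : ∃ A : ℝ, 1 ≤ A ∧ ∀ u ∈ s, |(u : ℝ)| < A - 1 / 2 := by
    refine ⟨∑ u ∈ s, |(u : ℝ)| + 2, ?_, fun u hu => ?_⟩
    · have := Finset.sum_nonneg (fun (u : ℤ) (_ : u ∈ s) => abs_nonneg (u : ℝ))
      linarith
    · have := Finset.single_le_sum (f := fun u : ℤ => |(u : ℝ)|)
        (fun (u : ℤ) (_ : u ∈ s) => abs_nonneg (u : ℝ)) hu
      linarith
  refine ⟨A, hA1, ?_⟩
  filter_upwards [eventually_ge_atTop (Real.exp 6), eventually_ge_atTop (3 * T1)] with T hT hT3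
  obtain ⟨hD, hD3, -, -, -, -⟩ := width hT (T' := T) (by
    have := Real.exp_pos 6; linarith) (by have := Real.exp_pos 6; linarith)
  have hTpos : 0 < T := by linarith
  set D := DD T with hDdef
  set B := {γ : ℝ | γ ∈ zset T ∧ A * D < |γ - T|} with hB
  have hBf : B.Finite := (hfin T).subset fun γ h => h.1
  change ∑ᶠ γ ∈ B, (mz γ : ℝ) * wt T γ ≤ _
  rw [finsum_mem_eq_finite_toFinset_sum _ hBf]
  set F := hBf.toFinset with hF
  set ρ : ℝ → ℤ := fun γ => round ((γ - T) / D) with hρ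
  have hcore : ∀ γ ∈ F, γ ∈ zset (T + ρ γ * D) ∧ T / 3 ≤ T + ρ γ * D ∧ T + ρ γ * D ≤ 3 * T ∧
      A - 1 / 2 ≤ |(ρ γ : ℝ)| ∧
      wt T γ ≤ gz (ρ γ) * (Real.exp 9 * wt (T + ρ γ * D) γ) := by
    intro γ hγ
    have hγB : γ ∈ B := hBf.mem_toFinset.1 hγ
    obtain ⟨⟨hz1, hz2, hz3⟩, hfar⟩ := hγB
    have hr : |(γ - T) / D - (ρ γ : ℝ)| ≤ 1 / 2 := abs_sub_round _
    have hr2 : |γ - (T + ρ γ * D)| ≤ D / 2 := by
      have : γ - (T + ρ γ * D) = ((γ - T) / D - ρ γ) * D := by field_simp; ring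
      rw [this, abs_mul, abs_of_pos hD]
      calc _ ≤ 1 / 2 * D := by gcongr
        _ = D / 2 := by ring
    have hr3 := abs_le.1 hr2
    have ha : T / 3 ≤ T + ρ γ * D := by linarith [hr3.2]
    have hb : T + ρ γ * D ≤ 3 * T := by linarith [hr3.1]
    obtain ⟨-, -, hw6, hw', -, -⟩ := width hT ha hb
    refine ⟨⟨by linarith [hr3.1], by linarith [hr3.2], hz3⟩, ha, hb, ?_, ?_⟩
    · have h1 : A < |(γ - T) / D| := by
        rw [abs_div, abs_of_pos hD, lt_div_iff₀ hD]; exact hfar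
      have h2 : |(γ - T) / D| ≤ |(ρ γ : ℝ)| + 1 / 2 := by
        have := abs_sub_abs_le_abs_sub ((γ - T) / D) (ρ γ : ℝ)
        linarith
      linarith
    · have h1 : |(ρ γ : ℝ)| - 1 / 2 ≤ |(γ - T) / D| := by
        have := abs_sub_abs_le_abs_sub (ρ γ : ℝ) ((γ - T) / D)
        rw [abs_sub_comm] at this
        linarith
      have h0 : 0 ≤ |(ρ γ : ℝ)| - 1 / 2 := by
        have h1 : A < |(γ - T) / D| := by
          rw [abs_div, abs_of_pos hD, lt_div_iff₀ hD]; exact hfar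
        have h2 : |(γ - T) / D| ≤ |(ρ γ : ℝ)| + 1 / 2 := by
          have := abs_sub_abs_le_abs_sub ((γ - T) / D) (ρ γ : ℝ)
          linarith
        have h3 : (0 : ℝ) < |(ρ γ : ℝ)| := by linarith
        have h4 : (1 : ℝ) ≤ |(ρ γ : ℝ)| := by
          have h5 : 0 < |ρ γ| := by
            have : (0 : ℝ) < ((|ρ γ| : ℤ) : ℝ) := by push_cast; exact h3
            exact_mod_cast this
          have h6 : 1 ≤ |ρ γ| := h5
          have : (1 : ℝ) ≤ ((|ρ γ| : ℤ) : ℝ) := by exact_mod_cast h6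
          push_cast at this; exact this
        linarith
      have h2 : wt T γ ≤ gz (ρ γ) := by
        unfold wt gz
        refine Real.exp_le_exp.2 ?_
        rw [← hDdef, neg_div, ← div_pow, ← sq_abs ((γ - T) / D)]
        exact neg_le_neg (pow_le_pow_left₀ h0 h1 2)
      have h3 : 1 ≤ Real.exp 9 * wt (T + ρ γ * D) γ := by
        unfold wt
        rw [← Real.exp_add, neg_div, ← div_pow]
        refine Real.one_le_exp ?_
        have h4 : |(γ - (T + ρ γ * D)) / DD (T + ρ γ * D)| ≤ 3 := by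
          rw [abs_div, abs_of_pos hw', div_le_iff₀ hw']
          linarith
        have h5 : ((γ - (T + ρ γ * D)) / DD (T + ρ γ * D)) ^ 2 ≤ 3 ^ 2 := by
          rw [← sq_abs]
          exact pow_le_pow_left₀ (abs_nonneg _) h4 2
        linarith
      calc wt T γ ≤ gz (ρ γ) * 1 := by rw [mul_one]; exact h2
        _ ≤ _ := by
          have := gz_nonneg (ρ γ)
          gcongr
  have hwt : ∀ T γ, 0 ≤ wt T γ := fun T γ => (Real.exp_pos _).le
  have hsum : ∀ u ∈ F.image ρ, ∑ γ ∈ F with ρ γ = u, (mz γ : ℝ) * wt T γ ≤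
      gz u * (Real.exp 9 * (12 * (cG T * Real.log T))) := by
    intro u hu
    obtain ⟨γ0, hγ0, hu0⟩ := Finset.mem_image.1 hu
    obtain ⟨-, ha, hb, -, -⟩ := hcore γ0 hγ0
    rw [hu0] at ha hb
    obtain ⟨-, -, -, hw', hL', hcomp⟩ := width hT ha hb
    have hcG' : 0 < cG (T + u * D) * Real.log (T + u * D) := by
      unfold cG; positivity
    have h1 : (ZS (T + u * D) (fun _ => 1)).re ≤ 2 * (cG (T + u * D) * Real.log (T + u * D)) := by
      have := (hT1 (T + u * D) (by linarith)).le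
      rwa [div_le_iff₀ hcG'] at this
    have h2 : ∑ γ ∈ F with ρ γ = u, (mz γ : ℝ) * wt (T + u * D) γ ≤
        (ZS (T + u * D) (fun _ => 1)).re := by
      rw [Pool.Agent.Lib.MP_6bc78b_nt.MS.P4.H84.zs_one hfin,
        finsum_mem_eq_finite_toFinset_sum _ (hfin _)]
      refine Finset.sum_le_sum_of_subset_of_nonneg (fun γ hγ => ?_) fun γ _ _ =>
        mul_nonneg (Nat.cast_nonneg _) (hwt _ _)
      obtain ⟨h3, h4⟩ := Finset.mem_filter.1 hγ
      have h5 := (hcore γ h3).1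
      rw [h4] at h5
      exact (hfin _).mem_toFinset.2 h5
    calc ∑ γ ∈ F with ρ γ = u, (mz γ : ℝ) * wt T γ
        ≤ ∑ γ ∈ F with ρ γ = u, gz u * (Real.exp 9 * ((mz γ : ℝ) * wt (T + u * D) γ)) := by
          refine Finset.sum_le_sum fun γ hγ => ?_
          obtain ⟨h3, h4⟩ := Finset.mem_filter.1 hγ
          have h5 := (hcore γ h3).2.2.2.2
          rw [h4] at h5
          calc (mz γ : ℝ) * wt T γ ≤ (mz γ : ℝ) * (gz u * (Real.exp 9 * wt (T + u * D) γ)) := by
                gcongr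
            _ = _ := by ring
      _ = gz u * (Real.exp 9 * ∑ γ ∈ F with ρ γ = u, (mz γ : ℝ) * wt (T + u * D) γ) := by
          rw [← Finset.mul_sum, ← Finset.mul_sum]
      _ ≤ gz u * (Real.exp 9 * (12 * (cG T * Real.log T))) := by
          have hg := gz_nonneg u
          gcongr
          linarith
  have hL : 0 < Real.log T := by
    refine Real.log_pos ?_
    have := Real.one_lt_exp_iff.2 (by norm_num : (0 : ℝ) < 6)
    linarith
  have hc : 0 < cG T * Real.log T := by unfold cG; positivity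
  have hdis : Disjoint (F.image ρ) s := by
    rw [Finset.disjoint_left]
    intro u hu hus
    obtain ⟨γ0, hγ0, hu0⟩ := Finset.mem_image.1 hu
    have h1 := (hcore γ0 hγ0).2.2.2.1
    rw [hu0] at h1
    have h2 := hA u hus
    linarith
  have hsm := (le_abs_self _).trans_lt (hs _ hdis)
  calc ∑ γ ∈ F, (mz γ : ℝ) * wt T γ
      = ∑ u ∈ F.image ρ, ∑ γ ∈ F with ρ γ = u, (mz γ : ℝ) * wt T γ :=
        (Finset.sum_fiberwise_of_maps_to (fun γ hγ => Finset.mem_image_of_mem ρ hγ) _).symm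
    _ ≤ ∑ u ∈ F.image ρ, gz u * (Real.exp 9 * (12 * (cG T * Real.log T))) :=
        Finset.sum_le_sum hsum
    _ = (∑ u ∈ F.image ρ, gz u) * (Real.exp 9 * (12 * (cG T * Real.log T))) := by
        rw [Finset.sum_mul]
    _ ≤ (ε / (Real.exp 9 * 12)) * (Real.exp 9 * (12 * (cG T * Real.log T))) := by
        gcongr
    _ = ε * (cG T * Real.log T) := by
        field_simp

end Pool.Agent.Lib.MP_6bc78b_nt.MS.QZ.H03
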