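import Pool.Agent.Lib.MP_6bc78b_nt.MS.QZ.Iface
import Pool.Agent.Lib.MP_6bc78b_nt.MS.P3.H28.Per

/-! Project MS, Part QZ, module KRN: Perron's formula for the coefficients of the mollifier. -/

set_option autoImplicit false

open Complex Filter Topology MeasureTheory ArithmeticFunction

namespace Pool.Agent.Lib.MP_6bc78b_nt.MS.QZ.H03

open Pool.Agent.Lib.MP_6bc78b_nt.MS Pool.Agent.Lib.MP_6bc78b_nt.MS.QZ
open Pool.Agent.Lib.MP_6bc78b_nt.MS.P3.H28 (perron per_int' per_cont cline_ne)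

/-- The kernel. -/
noncomputable def RR (c1 c2 X c : ℝ) (τ : ℝ) : ℂ :=
  (1 / (2 * Real.pi) : ℝ) * (Complex.exp (X * (c + τ * I)) *
    ((c1 / X : ℝ) * (((1 : ℕ).factorial : ℂ) / (c + τ * I) ^ (1 + 1)) +
      (c2 / X ^ 2 : ℝ) * (((2 : ℕ).factorial : ℂ) / (c + τ * I) ^ (2 + 1))))

theorem RR_cont (c1 c2 X : ℝ) {c : ℝ} (hc : 0 < c) : Continuous (RR c1 c2 X c) := by
  unfold RR
  exact continuous_const.mul ((by fun_prop : Continuous fun τ : ℝ =>
    Complex.exp (X * (c + τ * I))).mul ((continuous_const.mul (per_cont 1 hc)).add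
      (continuous_const.mul (per_cont 2 hc))))

theorem RR_bound (c1 c2 : ℝ) {th L : ℝ} (hth : 0 < th) (hL : 0 < L) (τ : ℝ) :
    ‖RR c1 c2 (th * L) (1 / L) τ‖ ≤
      (Real.exp th * (|c1| / th + 2 * |c2| / th ^ 2)) / (L * ((1 / L) ^ 2 + τ ^ 2)) := by
  have hc : 0 < 1 / L := by positivity
  set s : ℂ := ((1 / L : ℝ) : ℂ) + τ * I with hs
  have hn : ‖s‖ ^ 2 = (1 / L) ^ 2 + τ ^ 2 := by
    rw [hs, ← Complex.normSq_eq_norm_sq, Complex.normSq_add_mul_I]
  have hge : 1 / L ≤ ‖s‖ := by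
    have h1 := Complex.re_le_norm s
    have h2 : s.re = 1 / L := by rw [hs]; simp
    rwa [h2] at h1
  have hpos : 0 < ‖s‖ := lt_of_lt_of_le hc hge
  have hexp : ‖Complex.exp (((th * L : ℝ) : ℂ) * s)‖ = Real.exp th := by
    rw [Complex.norm_exp]
    congr 1
    have : (((th * L : ℝ) : ℂ) * s).re = th * L * (1 / L) := by
      rw [Complex.re_ofReal_mul, hs]; simp
    rw [this]; field_simp
  have hpi : ‖(((1 / (2 * Real.pi) : ℝ)) : ℂ)‖ ≤ 1 := by
    rw [Complex.norm_real, Real.norm_eq_abs, abs_of_pos (by positivity)]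
    rw [div_le_one (by positivity)]
    have := Real.pi_gt_three
    linarith
  have h3 : (‖s‖ ^ 3)⁻¹ ≤ L * (‖s‖ ^ 2)⁻¹ := by
    rw [pow_succ, mul_inv, mul_comm L]
    gcongr
    rw [inv_le_comm₀ hpos hL, ← one_div]
    exact hge
  have hA : ‖((c1 / (th * L) : ℝ) : ℂ) * (((1 : ℕ).factorial : ℂ) / s ^ (1 + 1))‖ =
      |c1| / (th * L) * (‖s‖ ^ 2)⁻¹ := by
    rw [norm_mul, Complex.norm_real, Real.norm_eq_abs, abs_div, abs_of_pos (by positivity : 0 < th * L),
      norm_div, norm_pow]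
    simp
  have hB : ‖((c2 / (th * L) ^ 2 : ℝ) : ℂ) * (((2 : ℕ).factorial : ℂ) / s ^ (2 + 1))‖ =
      |c2| / (th * L) ^ 2 * (2 * (‖s‖ ^ 3)⁻¹) := by
    rw [norm_mul, Complex.norm_real, Real.norm_eq_abs, abs_div,
      abs_of_pos (by positivity : 0 < (th * L) ^ 2), norm_div, norm_pow, div_eq_mul_inv (‖((2:ℕ).factorial : ℂ)‖)]
    simp
  unfold RR
  rw [← hs, norm_mul, norm_mul, hexp, ← hn]
  calc ‖(((1 / (2 * Real.pi) : ℝ)) : ℂ)‖ * (Real.exp th *
        ‖((c1 / (th * L) : ℝ) : ℂ) * (((1 : ℕ).factorial : ℂ) / s ^ (1 + 1)) +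
          ((c2 / (th * L) ^ 2 : ℝ) : ℂ) * (((2 : ℕ).factorial : ℂ) / s ^ (2 + 1))‖)
      ≤ 1 * (Real.exp th * (|c1| / (th * L) * (‖s‖ ^ 2)⁻¹ +
          |c2| / (th * L) ^ 2 * (2 * (L * (‖s‖ ^ 2)⁻¹)))) := by
        gcongr
        refine (norm_add_le _ _).trans ?_
        rw [hA, hB]
        gcongr
    _ = (Real.exp th * (|c1| / th + 2 * |c2| / th ^ 2)) / (L * ‖s‖ ^ 2) := by
        field_simp

theorem RR_int (c1 c2 : ℝ) {X c : ℝ} (hc : 0 < c) {n : ℕ} (hn : n ≠ 0) (m : ℂ) :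
    ∫ τ : ℝ, RR c1 c2 X c τ * (m * (n : ℂ) ^ (-((c : ℂ) + τ * I))) =
      m * (((c1 / X : ℝ) : ℂ) * ((max (X - Real.log n) 0 : ℝ) : ℂ) ^ 1 +
        ((c2 / X ^ 2 : ℝ) : ℂ) * ((max (X - Real.log n) 0 : ℝ) : ℂ) ^ 2) := by
  have hn' : (n : ℂ) ≠ 0 := by exact_mod_cast hn
  have key : ∀ τ : ℝ, RR c1 c2 X c τ * (m * (n : ℂ) ^ (-((c : ℂ) + τ * I))) =
      (m * ((1 / (2 * Real.pi) : ℝ) : ℂ) * ((c1 / X : ℝ) : ℂ)) *
        (Complex.exp (((X - Real.log n : ℝ) : ℂ) * (c + τ * I)) *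
          (((1 : ℕ).factorial : ℂ) / (c + τ * I) ^ (1 + 1))) +
      (m * ((1 / (2 * Real.pi) : ℝ) : ℂ) * ((c2 / X ^ 2 : ℝ) : ℂ)) *
        (Complex.exp (((X - Real.log n : ℝ) : ℂ) * (c + τ * I)) *
          (((2 : ℕ).factorial : ℂ) / (c + τ * I) ^ (2 + 1))) := by
    intro τ
    have h1 : (n : ℂ) ^ (-((c : ℂ) + τ * I)) = Complex.exp (-(Real.log n : ℂ) * (c + τ * I)) := by
      rw [Complex.cpow_def_of_ne_zero hn', ← Complex.natCast_log]
      congr 1; ring
    have h2 : Complex.exp (((X - Real.log n : ℝ) : ℂ) * (c + τ * I)) =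
        Complex.exp (X * (c + τ * I)) * Complex.exp (-(Real.log n : ℂ) * (c + τ * I)) := by
      rw [← Complex.exp_add]; congr 1; push_cast; ring
    rw [h1, h2]; unfold RR; ring
  rw [integral_congr_ae (Eventually.of_forall key), integral_add
    ((per_int' (k := 1) one_ne_zero hc _).const_mul _)
    ((per_int' (k := 2) two_ne_zero hc _).const_mul _),
    integral_const_mul, integral_const_mul, perron one_ne_zero hc, perron two_ne_zero hc]
  have hpi : (Real.pi : ℂ) ≠ 0 := by exact_mod_cast Real.pi_ne_zero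
  push_cast
  field_simp

theorem krn : KrnStatement := by
  intro th c1 c2 hth
  refine ⟨Real.exp th * (|c1| / th + 2 * |c2| / th ^ 2) + 1, 4, by positivity, by norm_num,
    fun T hT => ?_⟩
  have hL : 0 < Real.log T := Real.log_pos (by linarith)
  have hT0 : 0 < T := by linarith
  refine ⟨RR c1 c2 (th * Real.log T) (1 / Real.log T), RR_cont _ _ _ (by positivity),
    fun τ => (RR_bound c1 c2 hth hL τ).trans ?_, fun n hn => ?_⟩
  · have : 0 < Real.log T * ((1 / Real.log T) ^ 2 + τ ^ 2) := by positivity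
    gcongr
    linarith
  · have h1 := RR_int c1 c2 (X := th * Real.log T) (c := 1 / Real.log T) (by positivity) hn
      ((moebius n : ℤ) : ℂ)
    rw [h1]
    have hn1 : (0 : ℝ) < n := by exact_mod_cast Nat.pos_of_ne_zero hn
    have hX : 0 < th * Real.log T := by positivity
    have hiff : (n : ℝ) ≤ T ^ th ↔ 0 ≤ th * Real.log T - Real.log n := by
      rw [← Real.log_rpow hT0, sub_nonneg, Real.log_le_log_iff hn1 (Real.rpow_pos_of_pos hT0 _)]
    show ((betf th c1 c2 T n : ℝ) : ℂ) = _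
    unfold betf PP
    split_ifs with h
    · rw [max_eq_left (hiff.1 h)]
      have e : 1 - Real.log n / (th * Real.log T) =
          (th * Real.log T - Real.log n) / (th * Real.log T) := by field_simp
      rw [e]
      push_cast
      field_simp
    · rw [max_eq_right (by
        have := mt hiff.2 h
        linarith [not_le.1 this])]
      simp

end Pool.Agent.Lib.MP_6bc78b_nt.MS.QZ.H03
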